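import Mathlib

set_option autoImplicit false

namespace Pool.Agent.H7.JamesIso

section

variable {X : Type} [NormedAddCommGroup X] [NormedSpace ℝ X]

/-- `X` is reflexive: the canonical map into the bidual is onto. -/
def IsReflexive (X : Type) [NormedAddCommGroup X] [NormedSpace ℝ X] : Prop :=
  Function.Surjective (NormedSpace.inclusionInDoubleDual ℝ X)

/-- `x` is an unconditional basis of `X`: every vector has a unique expansion `∑ c i • x i`
converging unconditionally (`HasSum`: the sum converges along the net of all finite sets). -/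
def IsUnconditionalBasis (x : ℕ → X) : Prop :=
  ∀ v : X, ∃! c : ℕ → ℝ, HasSum (fun i => c i • x i) v

/-- A non-empty finite set of pairwise disjoint intervals `[p, q]` of integers, each written as
the pair `(p, q)` with `p ≤ q`. -/
def IsFamily (F : Finset (ℕ × ℕ)) : Prop :=
  F.Nonempty ∧ (∀ I ∈ F, I.1 ≤ I.2) ∧ ∀ I ∈ F, ∀ I' ∈ F, I ≠ I' → I.2 < I'.1 ∨ I'.2 < I.1

/-- The vector `∑_{[p,q] ∈ F} (∑_{p ≤ j ≤ q} a_j) x_p`. -/
noncomputable def famVec (x : ℕ → X) (F : Finset (ℕ × ℕ)) (a : ℕ →₀ ℝ) : X :=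
  ∑ I ∈ F, (∑ j ∈ Finset.Icc I.1 I.2, a j) • x I.1

/-- The norm of the Jamesification on finitely supported sequences. -/
noncomputable def jamesNorm (x : ℕ → X) (a : ℕ →₀ ℝ) : ℝ :=
  sSup {r : ℝ | ∃ F, IsFamily F ∧ r = ‖famVec x F a‖}

/-- `J` with the map `ι` from the finitely supported sequences is the Jamesification `J(x_i)`,
i.e. the completion of `c_00` under the norm above. -/
def IsJamesification (x : ℕ → X) (J : Type) [NormedAddCommGroup J] [NormedSpace ℝ J]
    (ι : (ℕ →₀ ℝ) →ₗ[ℝ] J) : Prop :=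
  CompleteSpace J ∧ DenseRange ι ∧ ∀ a, ‖ι a‖ = jamesNorm x a

/-- `J` has a surjective linear isometry different from the identity and its negative. -/
def HasNontrivialIsometry (J : Type) [NormedAddCommGroup J] [NormedSpace ℝ J] : Prop :=
  ∃ T : J ≃ₗᵢ[ℝ] J, (∃ z, T z ≠ z) ∧ ∃ z, T z ≠ -z

/-- `(x_i)` is an unconditional basis of the reflexive Banach space `X` and the Jamesification
`J(x_i)` has a non-trivial isometry. -/
def IsCounterexample (X : Type) [NormedAddCommGroup X] [NormedSpace ℝ X] (x : ℕ → X) : Prop :=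
  CompleteSpace X ∧ IsReflexive X ∧ IsUnconditionalBasis x ∧
    (∃ (J : Type) (_ : NormedAddCommGroup J) (_ : NormedSpace ℝ J) (ι : (ℕ →₀ ℝ) →ₗ[ℝ] J),
      IsJamesification x J ι) ∧
    ∀ (J : Type) [NormedAddCommGroup J] [NormedSpace ℝ J] (ι : (ℕ →₀ ℝ) →ₗ[ℝ] J),
      IsJamesification x J ι → HasNontrivialIsometry J

end

end Pool.Agent.H7.JamesIso
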