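import Pool.Agent.H7.JamesIso.Defs

set_option autoImplicit false

namespace Pool.Agent.H7.JamesIso

open Finset

/-! ### Reflexivity -/

lemma reflexive_hilbert (H : Type) [NormedAddCommGroup H] [InnerProductSpace ℝ H]
    [CompleteSpace H] : IsReflexive H := by
  intro F
  set G : StrongDual ℝ H := LinearMap.mkContinuous
    { toFun := fun x => F (InnerProductSpace.toDual ℝ H x)
      map_add' := fun x y => by rw [map_add, map_add]
      map_smul' := fun c x => by
        rw [map_smulₛₗ, RingHom.id_apply]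
        simp } ‖F‖ (fun x => by
          refine (F.le_opNorm _).trans_eq ?_
          rw [LinearIsometryEquiv.norm_map]) with hG
  refine ⟨(InnerProductSpace.toDual ℝ H).symm G, ?_⟩
  ext φ
  rw [NormedSpace.dual_def]
  obtain ⟨x, rfl⟩ := (InnerProductSpace.toDual ℝ H).surjective φ
  rw [InnerProductSpace.toDual_apply_apply, real_inner_comm,
    InnerProductSpace.toDual_symm_apply]
  rfl

lemma reflexive_of_equiv {A B Z : Type} [NormedAddCommGroup A] [NormedSpace ℝ A]
    [NormedAddCommGroup B] [NormedSpace ℝ B] [NormedAddCommGroup Z] [NormedSpace ℝ Z]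
    (e : Z ≃L[ℝ] A × B) (hA : IsReflexive A) (hB : IsReflexive B) : IsReflexive Z := by
  intro F
  set pA : Z →L[ℝ] A := (ContinuousLinearMap.fst ℝ A B).comp (e : Z →L[ℝ] A × B) with hpA
  set pB : Z →L[ℝ] B := (ContinuousLinearMap.snd ℝ A B).comp (e : Z →L[ℝ] A × B) with hpB
  obtain ⟨a, ha⟩ := hA (F.comp ((ContinuousLinearMap.compL ℝ Z A ℝ).flip pA))
  obtain ⟨b, hb⟩ := hB (F.comp ((ContinuousLinearMap.compL ℝ Z B ℝ).flip pB))
  refine ⟨e.symm (a, b), ?_⟩
  ext ψ
  rw [NormedSpace.dual_def]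
  have h1 : ψ = (ψ.comp ((e.symm : A × B →L[ℝ] Z).comp (ContinuousLinearMap.inl ℝ A B))).comp pA +
      (ψ.comp ((e.symm : A × B →L[ℝ] Z).comp (ContinuousLinearMap.inr ℝ A B))).comp pB := by
    ext z
    simp only [add_apply, ContinuousLinearMap.comp_apply, hpA, hpB]
    rw [← map_add]
    congr 1
    show z = e.symm (ContinuousLinearMap.inl ℝ A B (e z).1) +
      e.symm (ContinuousLinearMap.inr ℝ A B (e z).2)
    rw [← map_add]
    simp
  have h2 := congrArg (fun G => G (ψ.comp ((e.symm : A × B →L[ℝ] Z).comp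
    (ContinuousLinearMap.inl ℝ A B)))) ha
  have h3 := congrArg (fun G => G (ψ.comp ((e.symm : A × B →L[ℝ] Z).comp
    (ContinuousLinearMap.inr ℝ A B)))) hb
  simp only [NormedSpace.dual_def] at h2 h3
  conv_rhs => rw [h1, map_add]
  have h4 : F ((ψ.comp ((e.symm : A × B →L[ℝ] Z).comp (ContinuousLinearMap.inl ℝ A B))).comp pA) =
      ψ (e.symm (ContinuousLinearMap.inl ℝ A B a)) := h2.symm
  have h5 : F ((ψ.comp ((e.symm : A × B →L[ℝ] Z).comp (ContinuousLinearMap.inr ℝ A B))).comp pB) =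
      ψ (e.symm (ContinuousLinearMap.inr ℝ A B b)) := h3.symm
  rw [h4, h5, ← map_add, ← map_add]
  simp

/-! ### The space -/

abbrev H : Type := lp (fun _ : ℕ => ℝ) 2
abbrev Y : Type := WithLp 1 (ℝ × H)
abbrev X : Type := WithLp 1 (ℝ × Y)

lemma reflexive_X : IsReflexive X := by
  apply reflexive_of_equiv (WithLp.prodContinuousLinearEquiv 1 ℝ ℝ Y) (reflexive_hilbert ℝ)
  exact reflexive_of_equiv (WithLp.prodContinuousLinearEquiv 1 ℝ ℝ H) (reflexive_hilbert ℝ)
    (reflexive_hilbert H)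

noncomputable def mk (a b : ℝ) (h : H) : X := WithLp.toLp 1 (a, WithLp.toLp 1 (b, h))

lemma norm_mk (a b : ℝ) (h : H) : ‖mk a b h‖ = |a| + (|b| + ‖h‖) := by
  unfold mk
  rw [WithLp.prod_norm_eq_of_L1]
  show ‖a‖ + ‖(WithLp.toLp 1 (b, h) : Y)‖ = _
  rw [WithLp.prod_norm_eq_of_L1]
  rfl

lemma mk_add (a b : ℝ) (h : H) (a' b' : ℝ) (h' : H) :
    mk a b h + mk a' b' h' = mk (a + a') (b + b') (h + h') := rfl

lemma smul_mk (r a b : ℝ) (h : H) : r • mk a b h = mk (r * a) (r * b) (r • h) := rfl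

lemma eq_mk (v : X) : ∃ a b h, v = mk a b h := ⟨v.fst, v.snd.fst, v.snd.snd, rfl⟩

/-- The basis. -/
noncomputable def bx : ℕ → X
  | 0 => mk 1 0 0
  | 1 => mk 0 1 0
  | (n + 2) => mk 0 0 (lp.single 2 n (1 : ℝ))

/-- Embedding of the Hilbert part. -/
noncomputable def emb : H →L[ℝ] X :=
  ((WithLp.prodContinuousLinearEquiv 1 ℝ ℝ Y).symm : ℝ × Y →L[ℝ] X).comp
    ((ContinuousLinearMap.inr ℝ ℝ Y).comp
      (((WithLp.prodContinuousLinearEquiv 1 ℝ ℝ H).symm : ℝ × H →L[ℝ] Y).comp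
        (ContinuousLinearMap.inr ℝ ℝ H)))

lemma emb_apply (h : H) : emb h = mk 0 0 h := rfl

/-- Coordinate functionals. -/
noncomputable def c0 : X →L[ℝ] ℝ :=
  (ContinuousLinearMap.fst ℝ ℝ Y).comp (WithLp.prodContinuousLinearEquiv 1 ℝ ℝ Y : X →L[ℝ] ℝ × Y)

noncomputable def cY : X →L[ℝ] Y :=
  (ContinuousLinearMap.snd ℝ ℝ Y).comp (WithLp.prodContinuousLinearEquiv 1 ℝ ℝ Y : X →L[ℝ] ℝ × Y)

noncomputable def c1 : X →L[ℝ] ℝ :=
  ((ContinuousLinearMap.fst ℝ ℝ H).comp
    (WithLp.prodContinuousLinearEquiv 1 ℝ ℝ H : Y →L[ℝ] ℝ × H)).comp cY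

noncomputable def cH : X →L[ℝ] H :=
  ((ContinuousLinearMap.snd ℝ ℝ H).comp
    (WithLp.prodContinuousLinearEquiv 1 ℝ ℝ H : Y →L[ℝ] ℝ × H)).comp cY

lemma c0_mk (a b : ℝ) (h : H) : c0 (mk a b h) = a := rfl
lemma c1_mk (a b : ℝ) (h : H) : c1 (mk a b h) = b := rfl
lemma cH_mk (a b : ℝ) (h : H) : cH (mk a b h) = h := rfl

noncomputable def coord : ℕ → (X →L[ℝ] ℝ)
  | 0 => c0
  | 1 => c1
  | (n + 2) => (lp.evalCLM ℝ (fun _ : ℕ => ℝ) 2 n).comp cH

lemma coord_bx (m n : ℕ) : coord m (bx n) = if n = m then 1 else 0 := by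
  match m, n with
  | 0, 0 => simp [coord, bx, c0_mk]
  | 0, 1 => simp [coord, bx, c0_mk]
  | 0, (n + 2) => simp [coord, bx, c0_mk]
  | 1, 0 => simp [coord, bx, c1_mk]
  | 1, 1 => simp [coord, bx, c1_mk]
  | 1, (n + 2) => simp [coord, bx, c1_mk]
  | (m + 2), 0 => simp [coord, bx, cH_mk]
  | (m + 2), 1 => simp [coord, bx, cH_mk]
  | (m + 2), (n + 2) =>
    show ((cH (mk 0 0 (lp.single 2 n (1 : ℝ))) : H) : ℕ → ℝ) m = _
    rw [cH_mk]
    rw [lp.coeFn_single]
    simp [Pi.single_apply, eq_comm]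

lemma basis_bx : IsUnconditionalBasis bx := by
  intro v
  obtain ⟨a, b, h, rfl⟩ := eq_mk v
  refine ⟨fun n => coord n (mk a b h), ?_, ?_⟩
  · show HasSum (fun i => coord i (mk a b h) • bx i) (mk a b h)
    have h1 : HasSum (fun n : ℕ => coord (n + 2) (mk a b h) • bx (n + 2)) (mk 0 0 h) := by
      have h2 : HasSum (fun n : ℕ => (lp.single 2 n ((h : ℕ → ℝ) n) : H)) h :=
        lp.hasSum_single ENNReal.ofNat_ne_top h
      have h2' : HasSum (fun n : ℕ => emb (lp.single 2 n ((h : ℕ → ℝ) n) : H)) (emb h) :=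
        h2.mapL emb
      have h2'' : (fun n : ℕ => coord (n + 2) (mk a b h) • bx (n + 2)) =
          fun n : ℕ => emb (lp.single 2 n ((h : ℕ → ℝ) n) : H) := by
        funext n
        rw [emb_apply]
        have e1 : coord (n + 2) (mk a b h) = (h : ℕ → ℝ) n := rfl
        have e2 : bx (n + 2) = mk 0 0 (lp.single 2 n (1 : ℝ)) := rfl
        rw [e1, e2, smul_mk, mul_zero, ← lp.single_smul, smul_eq_mul, mul_one]
      rw [h2'']
      exact h2'
    have h3 : HasSum (fun i => coord i (mk a b h) • bx i)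
        (mk 0 0 h + ∑ i ∈ range 2, coord i (mk a b h) • bx i) := by
      rw [← hasSum_nat_add_iff (f := fun i => coord i (mk a b h) • bx i) 2]
      exact h1
    have h4 : mk 0 0 h + ∑ i ∈ range 2, coord i (mk a b h) • bx i = mk a b h := by
      rw [Finset.sum_range_succ, Finset.sum_range_one]
      show mk 0 0 h + (a • mk 1 0 0 + b • mk 0 1 0) = mk a b h
      rw [smul_mk, smul_mk, mk_add, mk_add]
      simp
    rw [h4] at h3
    exact h3
  · intro c hc
    funext n
    have h1 := hc.mapL (coord n)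
    have h2 : HasSum (fun i => coord n (c i • bx i)) (c n) := by
      have : (fun i => coord n (c i • bx i)) = fun i => if i = n then c i else 0 := by
        ext i
        rw [map_smul, coord_bx]
        simp
      rw [this]
      have h3 := hasSum_ite_eq n (c n)
      convert h3 using 2 with i
      by_cases h : i = n
      · simp [h]
      · simp [h]
    exact h2.unique h1

end Pool.Agent.H7.JamesIso
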