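import Pool.Agent.H7.JamesIso.Proof

set_option autoImplicit false

namespace Pool.Agent.H7.JamesIso

open Finset

/-! ### Boundedness of the family -/

lemma fst_injOn {F : Finset (ℕ × ℕ)} (hF : IsFamily F) :
    Set.InjOn (fun I : ℕ × ℕ => I.1) (F : Set (ℕ × ℕ)) := by
  intro I hI I' hI' h
  by_contra hne
  have h1 := hF.2.1 I hI
  have h2 := hF.2.1 I' hI'
  simp only at h
  rcases hF.2.2 I hI I' hI' hne with h3 | h3 <;> omega

lemma abs_sum_le (a : ℕ →₀ ℝ) (s : Finset ℕ) : |∑ j ∈ s, a j| ≤ ∑ j ∈ a.support, |a j| := by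
  calc |∑ j ∈ s, a j| ≤ ∑ j ∈ s, |a j| := Finset.abs_sum_le_sum_abs _ _
    _ ≤ ∑ j ∈ s ∪ a.support, |a j| :=
        Finset.sum_le_sum_of_subset_of_nonneg Finset.subset_union_left (fun _ _ _ => abs_nonneg _)
    _ = ∑ j ∈ a.support, |a j| := by
        symm
        apply Finset.sum_subset Finset.subset_union_right
        intro j _ hj
        rw [Finsupp.notMem_support_iff.mp hj, abs_zero]

lemma exists_bound {X : Type} [NormedAddCommGroup X] [NormedSpace ℝ X] (x : ℕ → X)
    (a : ℕ →₀ ℝ) : ∃ C, ∀ F, IsFamily F → ‖famVec x F a‖ ≤ C := by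
  obtain ⟨N, hN⟩ : ∃ N, ∀ j ∈ a.support, j < N := by
    refine ⟨a.support.sup id + 1, fun j hj => ?_⟩
    exact Nat.lt_succ_of_le (Finset.le_sup (f := id) hj)
  set A := ∑ j ∈ a.support, |a j| with hA
  have hA0 : 0 ≤ A := Finset.sum_nonneg fun _ _ => abs_nonneg _
  refine ⟨A * ∑ p ∈ range N, ‖x p‖, fun F hF => ?_⟩
  unfold famVec
  have h1 : ∀ I ∈ F, ‖(∑ j ∈ Icc I.1 I.2, a j) • x I.1‖ ≤
      A * (if I.1 < N then ‖x I.1‖ else 0) := by
    intro I _
    split_ifs with h
    · rw [norm_smul, Real.norm_eq_abs]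
      exact mul_le_mul_of_nonneg_right (abs_sum_le a _) (norm_nonneg _)
    · have : ∑ j ∈ Icc I.1 I.2, a j = 0 := by
        apply Finset.sum_eq_zero
        intro j hj
        rw [Finset.mem_Icc] at hj
        by_contra hne
        have := hN j (Finsupp.mem_support_iff.mpr hne)
        omega
      rw [this, zero_smul, norm_zero, mul_zero]
  calc ‖∑ I ∈ F, (∑ j ∈ Icc I.1 I.2, a j) • x I.1‖ ≤
        ∑ I ∈ F, ‖(∑ j ∈ Icc I.1 I.2, a j) • x I.1‖ := norm_sum_le _ _
    _ ≤ ∑ I ∈ F, A * (if I.1 < N then ‖x I.1‖ else 0) := Finset.sum_le_sum h1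
    _ = A * ∑ I ∈ F, (if I.1 < N then ‖x I.1‖ else 0) := by rw [Finset.mul_sum]
    _ = A * ∑ p ∈ F.image (fun I : ℕ × ℕ => I.1), (if p < N then ‖x p‖ else 0) := by
        rw [Finset.sum_image (fst_injOn hF)]
    _ ≤ A * ∑ p ∈ range N, ‖x p‖ := by
        apply mul_le_mul_of_nonneg_left _ hA0
        rw [← Finset.sum_filter]
        apply Finset.sum_le_sum_of_subset_of_nonneg
        · intro p hp
          rw [Finset.mem_filter] at hp
          exact Finset.mem_range.mpr hp.2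
        · intro _ _ _; exact norm_nonneg _

lemma bddAbove_set {X : Type} [NormedAddCommGroup X] [NormedSpace ℝ X] (x : ℕ → X)
    (a : ℕ →₀ ℝ) : BddAbove {r : ℝ | ∃ F, IsFamily F ∧ r = ‖famVec x F a‖} := by
  obtain ⟨C, hC⟩ := exists_bound x a
  refine ⟨C, ?_⟩
  rintro _ ⟨F, hF, rfl⟩
  exact hC F hF

lemma le_jamesNorm {X : Type} [NormedAddCommGroup X] [NormedSpace ℝ X] (x : ℕ → X)
    (a : ℕ →₀ ℝ) {F} (hF : IsFamily F) : ‖famVec x F a‖ ≤ jamesNorm x a :=
  le_csSup (bddAbove_set x a) ⟨F, hF, rfl⟩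

lemma isFamily_single (p : ℕ) : IsFamily {(p, p)} := by
  refine ⟨Finset.singleton_nonempty _, ?_, ?_⟩
  · intro I hI; rw [Finset.mem_singleton] at hI; rw [hI]
  · intro I hI I' hI' h
    rw [Finset.mem_singleton] at hI hI'
    exact absurd (hI.trans hI'.symm) h

lemma jamesNorm_le {X : Type} [NormedAddCommGroup X] [NormedSpace ℝ X] (x : ℕ → X)
    (a : ℕ →₀ ℝ) {C : ℝ} (h : ∀ F, IsFamily F → ‖famVec x F a‖ ≤ C) : jamesNorm x a ≤ C := by
  apply csSup_le (⟨‖famVec x {(0, 0)} a‖, {(0, 0)}, isFamily_single 0, rfl⟩ :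
    {r : ℝ | ∃ F, IsFamily F ∧ r = ‖famVec x F a‖}.Nonempty)
  rintro _ ⟨F, hF, rfl⟩
  exact h F hF

lemma famVec_add {X : Type} [NormedAddCommGroup X] [NormedSpace ℝ X] (x : ℕ → X)
    (F) (a b : ℕ →₀ ℝ) : famVec x F (a + b) = famVec x F a + famVec x F b := by
  unfold famVec
  rw [← Finset.sum_add_distrib]
  apply Finset.sum_congr rfl
  intro I _
  rw [← add_smul, ← Finset.sum_add_distrib]
  rfl

lemma famVec_smul {X : Type} [NormedAddCommGroup X] [NormedSpace ℝ X] (x : ℕ → X)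
    (F) (c : ℝ) (a : ℕ →₀ ℝ) : famVec x F (c • a) = c • famVec x F a := by
  unfold famVec
  rw [Finset.smul_sum]
  apply Finset.sum_congr rfl
  intro I _
  rw [smul_smul, Finset.mul_sum]
  rfl

/-! ### Existence of the completion -/

abbrev Fam : Type := {F : Finset (ℕ × ℕ) // IsFamily F}

noncomputable def pre (X : Type) [NormedAddCommGroup X] [NormedSpace ℝ X] (x : ℕ → X) :
    (ℕ →₀ ℝ) →ₗ[ℝ] lp (fun _ : Fam => X) ⊤ where
  toFun a := ⟨fun F => famVec x F.1 a, by
    obtain ⟨C, hC⟩ := exists_bound x a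
    apply memℓp_infty
    refine ⟨C, ?_⟩
    rintro _ ⟨F, rfl⟩
    exact hC F.1 F.2⟩
  map_add' a b := by
    ext F
    exact famVec_add x F.1 a b
  map_smul' c a := by
    ext F
    exact famVec_smul x F.1 c a

lemma norm_pre {X : Type} [NormedAddCommGroup X] [NormedSpace ℝ X] (x : ℕ → X) (a : ℕ →₀ ℝ) :
    ‖pre X x a‖ = jamesNorm x a := by
  rw [lp.norm_eq_ciSup]
  unfold jamesNorm
  rw [iSup]
  congr 1
  ext r
  constructor
  · rintro ⟨F, rfl⟩
    exact ⟨F.1, F.2, rfl⟩
  · rintro ⟨F, hF, rfl⟩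
    exact ⟨⟨F, hF⟩, rfl⟩

lemma exists_completion {X : Type} [NormedAddCommGroup X] [NormedSpace ℝ X] [CompleteSpace X]
    (x : ℕ → X) :
    ∃ (J : Type) (_ : NormedAddCommGroup J) (_ : NormedSpace ℝ J) (ι : (ℕ →₀ ℝ) →ₗ[ℝ] J),
      IsJamesification x J ι := by
  set S := (LinearMap.range (pre X x)).topologicalClosure with hS
  have hmem : ∀ a, pre X x a ∈ S := fun a =>
    (LinearMap.range (pre X x)).le_topologicalClosure ⟨a, rfl⟩
  refine ⟨S, inferInstance, inferInstance, (pre X x).codRestrict S hmem, ?_, ?_, ?_⟩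
  · have : IsClosed (S : Set (lp (fun _ : Fam => X) ⊤)) := Submodule.isClosed_topologicalClosure _
    exact this.completeSpace_coe
  · intro y
    rw [Metric.mem_closure_iff]
    intro ε hε
    have hy : (y : lp (fun _ : Fam => X) ⊤) ∈
        closure (LinearMap.range (pre X x) : Set (lp (fun _ : Fam => X) ⊤)) := y.2
    rw [Metric.mem_closure_iff] at hy
    obtain ⟨_, ⟨a, rfl⟩, hb⟩ := hy ε hε
    exact ⟨_, ⟨a, rfl⟩, hb⟩
  · intro a
    rw [← norm_pre]
    rfl

/-! ### The isometry -/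

/-- Sign change of the coordinate `0`. -/
noncomputable def sg : (ℕ →₀ ℝ) →ₗ[ℝ] (ℕ →₀ ℝ) :=
  LinearMap.id - (2 : ℝ) • (Finsupp.lsingle 0).comp (Finsupp.lapply 0)

lemma sg_zero (a : ℕ →₀ ℝ) : sg a 0 = -a 0 := by
  simp [sg]
  ring

lemma sg_ne (a : ℕ →₀ ℝ) {j : ℕ} (hj : j ≠ 0) : sg a j = a j := by
  simp [sg, hj]

lemma sg_sg (a : ℕ →₀ ℝ) : sg (sg a) = a := by
  ext j
  by_cases hj : j = 0
  · rw [hj, sg_zero, sg_zero, neg_neg]
  · rw [sg_ne _ hj, sg_ne _ hj]

/-- The vectors `famVec bx R a` for families that avoid `0`, resp. `0` and `1`. -/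
lemma famVec_form (R : Finset (ℕ × ℕ)) (a : ℕ →₀ ℝ) (h : ∀ I ∈ R, 1 ≤ I.1) :
    ∃ b h', famVec bx R a = mk 0 b h' := by
  unfold famVec
  induction R using Finset.induction_on with
  | empty => exact ⟨0, 0, rfl⟩
  | insert I R hI ih =>
    obtain ⟨b, h', hb⟩ := ih (fun I' hI' => h I' (Finset.mem_insert_of_mem hI'))
    rw [Finset.sum_insert hI, hb]
    have h1 := h I (Finset.mem_insert_self _ _)
    obtain ⟨c, h'', hc⟩ : ∃ c h'', bx I.1 = mk 0 c h'' := by
      match hI1 : I.1, h1 with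
      | 1, _ => exact ⟨1, 0, rfl⟩
      | (n + 2), _ => exact ⟨0, _, rfl⟩
    rw [hc, smul_mk, mk_add, mul_zero, add_zero]
    exact ⟨_, _, rfl⟩

lemma famVec_form2 (R : Finset (ℕ × ℕ)) (a : ℕ →₀ ℝ) (h : ∀ I ∈ R, 2 ≤ I.1) :
    ∃ h', famVec bx R a = mk 0 0 h' := by
  unfold famVec
  induction R using Finset.induction_on with
  | empty => exact ⟨0, rfl⟩
  | insert I R hI ih =>
    obtain ⟨h', hb⟩ := ih (fun I' hI' => h I' (Finset.mem_insert_of_mem hI'))
    rw [Finset.sum_insert hI, hb]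
    have h1 := h I (Finset.mem_insert_self _ _)
    obtain ⟨h'', hc⟩ : ∃ h'', bx I.1 = mk 0 0 h'' := by
      match hI1 : I.1, h1 with
      | (n + 2), _ => exact ⟨_, rfl⟩
    rw [hc, smul_mk, mk_add, mul_zero, add_zero]
    exact ⟨_, rfl⟩

lemma famVec_sg (R : Finset (ℕ × ℕ)) (a : ℕ →₀ ℝ) (h : ∀ I ∈ R, 1 ≤ I.1) :
    famVec bx R (sg a) = famVec bx R a := by
  unfold famVec
  apply Finset.sum_congr rfl
  intro I hI
  congr 1
  apply Finset.sum_congr rfl
  intro j hj
  rw [Finset.mem_Icc] at hj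
  apply sg_ne
  have := h I hI
  omega

lemma key_le (a : ℕ →₀ ℝ) (F) (hF : IsFamily F) :
    ‖famVec bx F (sg a)‖ ≤ jamesNorm bx a := by
  by_cases h0 : ∃ I ∈ F, I.1 = 0
  · obtain ⟨⟨p, q⟩, hI, hp⟩ := h0
    simp only at hp
    subst hp
    set R := F.erase (0, q) with hR
    have hRdisj : ∀ I ∈ R, q < I.1 := by
      intro I hIR
      have h1 := Finset.mem_of_mem_erase hIR
      have h2 := Finset.ne_of_mem_erase hIR
      rcases hF.2.2 I h1 (0, q) hI h2 with h3 | h3
      · simp at h3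
      · exact h3
    have hR1 : ∀ I ∈ R, 1 ≤ I.1 := fun I hI => by have := hRdisj I hI; omega
    have hsplit : ∀ b : ℕ →₀ ℝ, famVec bx F b =
        (∑ j ∈ Icc 0 q, b j) • bx 0 + famVec bx R b := by
      intro b
      unfold famVec
      rw [← Finset.add_sum_erase F _ hI]
    set σ := ∑ j ∈ Icc 1 q, a j with hσ
    have hIcc : ∀ b : ℕ →₀ ℝ, ∑ j ∈ Icc 0 q, b j = b 0 + ∑ j ∈ Icc 1 q, b j := by
      intro b
      rw [← Finset.add_sum_Ioc_eq_sum_Icc (Nat.zero_le q)]
      rfl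
    have hsum : ∑ j ∈ Icc 0 q, (sg a) j = -a 0 + σ := by
      rw [hIcc, sg_zero, hσ]
      congr 1
      apply Finset.sum_congr rfl
      intro j hj
      rw [Finset.mem_Icc] at hj
      exact sg_ne _ (by omega)
    rw [hsplit, hsum, famVec_sg R a hR1]
    rcases Nat.eq_zero_or_pos q with hq | hq
    · -- interval `[0,0]`
      subst hq
      have hσ0 : σ = 0 := by rw [hσ]; simp
      obtain ⟨b, h', hb⟩ := famVec_form R a hR1
      have h1 := le_jamesNorm bx a hF
      rw [hsplit, hIcc, ← hσ, hσ0, hb] at h1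
      rw [hσ0, hb]
      show ‖(-a 0 + 0) • mk 1 0 0 + mk 0 b h'‖ ≤ _
      have h2 : ‖(a 0 + 0) • mk 1 0 0 + mk 0 b h'‖ ≤ jamesNorm bx a := h1
      rw [smul_mk, mk_add, norm_mk] at h2 ⊢
      simpa using h2
    · -- interval `[0,q]`, `q ≥ 1`
      have hR2 : ∀ I ∈ R, 2 ≤ I.1 := fun I hI => by have := hRdisj I hI; omega
      obtain ⟨h', hb⟩ := famVec_form2 R a hR2
      set F' := insert ((0, 0) : ℕ × ℕ) (insert (1, q) R) with hF'
      have hn1 : ((1, q) : ℕ × ℕ) ∉ R := by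
        intro h
        have := hRdisj _ h
        simp only at this
        omega
      have hn0 : ((0, 0) : ℕ × ℕ) ∉ insert ((1, q) : ℕ × ℕ) R := by
        intro h
        rcases Finset.mem_insert.mp h with h | h
        · simp at h
        · have := hRdisj _ h
          simp at this
      have hfam : IsFamily F' := by
        refine ⟨⟨_, Finset.mem_insert_self _ _⟩, ?_, ?_⟩
        · intro I hI'
          rw [hF', Finset.mem_insert, Finset.mem_insert] at hI'
          rcases hI' with rfl | rfl | h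
          · exact le_rfl
          · exact hq
          · exact hF.2.1 I (Finset.mem_of_mem_erase h)
        · intro I hI1 I' hI2 hne
          rw [hF', Finset.mem_insert, Finset.mem_insert] at hI1 hI2
          rcases hI1 with rfl | rfl | h
          · rcases hI2 with rfl | rfl | h'
            · exact absurd rfl hne
            · left; simp
            · left; have := hRdisj _ h'; simp only; omega
          · rcases hI2 with rfl | rfl | h'
            · right; simp
            · exact absurd rfl hne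
            · left; exact hRdisj _ h'
          · rcases hI2 with rfl | rfl | h'
            · right; have := hRdisj _ h; simp only; omega
            · right; exact hRdisj _ h
            · exact hF.2.2 I (Finset.mem_of_mem_erase h) I' (Finset.mem_of_mem_erase h') hne
      have h1 := le_jamesNorm bx a hfam
      have h2 : famVec bx F' a = (a 0) • mk 1 0 0 + (σ • mk 0 1 0 + mk 0 0 h') := by
        rw [← hb]
        unfold famVec
        rw [hF', Finset.sum_insert hn0, Finset.sum_insert hn1]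
        congr 1
        simp [bx]
      rw [h2, smul_mk, smul_mk, mk_add, mk_add, norm_mk] at h1
      rw [hb]
      show ‖(-a 0 + σ) • mk 1 0 0 + mk 0 0 h'‖ ≤ _
      rw [smul_mk, mk_add, norm_mk]
      have h3 : |-a 0 + σ| ≤ |a 0| + |σ| := by
        have := abs_add_le (-a 0) σ
        rwa [abs_neg] at this
      simp only [mul_one, mul_zero, add_zero, zero_add, smul_zero, abs_zero] at h1 ⊢
      linarith
  · push Not at h0
    have h1 : ∀ I ∈ F, 1 ≤ I.1 := fun I hI => Nat.one_le_iff_ne_zero.mpr (h0 I hI)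
    rw [famVec_sg F a h1]
    exact le_jamesNorm bx a hF

lemma jamesNorm_sg_le (a : ℕ →₀ ℝ) : jamesNorm bx (sg a) ≤ jamesNorm bx a :=
  jamesNorm_le bx (sg a) (fun F hF => key_le a F hF)

lemma jamesNorm_sg (a : ℕ →₀ ℝ) : jamesNorm bx (sg a) = jamesNorm bx a := by
  apply le_antisymm (jamesNorm_sg_le a)
  have := jamesNorm_sg_le (sg a)
  rwa [sg_sg] at this

lemma norm_bx (n : ℕ) (hn : n ≤ 1) : ‖bx n‖ = 1 := by
  match n, hn with
  | 0, _ => show ‖mk 1 0 0‖ = 1; rw [norm_mk]; simp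
  | 1, _ => show ‖mk 0 1 0‖ = 1; rw [norm_mk]; simp

lemma jamesNorm_single (n : ℕ) (hn : n ≤ 1) : 1 ≤ jamesNorm bx (Finsupp.single n 1) := by
  have h := le_jamesNorm bx (Finsupp.single n 1) (isFamily_single n)
  have h1 : famVec bx {(n, n)} (Finsupp.single n 1) = bx n := by
    unfold famVec
    simp
  rw [h1, norm_bx n hn] at h
  exact h

lemma eq_zero_of_eq_neg {J : Type} [NormedAddCommGroup J] [NormedSpace ℝ J] {z : J}
    (h : z = -z) : z = 0 := by
  have h1 : (2 : ℝ) • z = 0 := by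
    rw [two_smul]
    nth_rewrite 2 [h]
    exact add_neg_cancel z
  rcases smul_eq_zero.mp h1 with h2 | h2
  · norm_num at h2
  · exact h2

lemma exists_isometry (J : Type) [NormedAddCommGroup J] [NormedSpace ℝ J]
    (ι : (ℕ →₀ ℝ) →ₗ[ℝ] J) (hJ : IsJamesification bx J ι) : HasNontrivialIsometry J := by
  obtain ⟨hc, hd, hn⟩ := hJ
  have hbound : ∀ a, ‖(ι.comp sg) a‖ ≤ 1 * ‖ι a‖ := by
    intro a
    rw [LinearMap.comp_apply, hn, hn, jamesNorm_sg, one_mul]
  set T : J →L[ℝ] J := (ι.comp sg).extendOfNorm ι with hT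
  have hTι : ∀ a, T (ι a) = ι (sg a) := fun a =>
    LinearMap.extendOfNorm_eq hd ⟨1, hbound⟩ a
  have hTT : ∀ y, T (T y) = y := by
    intro y
    refine hd.induction_on (p := fun y => T (T y) = y) y ?_ ?_
    · exact isClosed_eq (T.continuous.comp T.continuous) continuous_id
    · intro a
      rw [hTι, hTι, sg_sg]
  have hTn : ∀ y, ‖T y‖ = ‖y‖ := by
    intro y
    refine hd.induction_on (p := fun y => ‖T y‖ = ‖y‖) y ?_ ?_
    · exact isClosed_eq (continuous_norm.comp T.continuous) continuous_norm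
    · intro a
      rw [hTι, hn, hn, jamesNorm_sg]
  set E : J ≃ₗᵢ[ℝ] J :=
    { toLinearEquiv := LinearEquiv.ofInvolutive T.toLinearMap hTT
      norm_map' := hTn } with hE
  refine ⟨E, ⟨ι (Finsupp.single 0 1), ?_⟩, ⟨ι (Finsupp.single 1 1), ?_⟩⟩
  · show T (ι (Finsupp.single 0 1)) ≠ ι (Finsupp.single 0 1)
    rw [hTι]
    have : sg (Finsupp.single 0 1) = -Finsupp.single 0 1 := by
      ext j
      by_cases hj : j = 0
      · rw [hj, sg_zero]; simp
      · rw [sg_ne _ hj]; simp [Ne.symm hj]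
    rw [this, map_neg]
    intro h
    have h2 : ι (Finsupp.single 0 1) = 0 := eq_zero_of_eq_neg h.symm
    have h3 := jamesNorm_single 0 (by norm_num)
    rw [← hn, h2, norm_zero] at h3
    norm_num at h3
  · show T (ι (Finsupp.single 1 1)) ≠ -ι (Finsupp.single 1 1)
    rw [hTι]
    have : sg (Finsupp.single 1 1) = Finsupp.single 1 1 := by
      ext j
      by_cases hj : j = 0
      · rw [hj, sg_zero]; simp
      · rw [sg_ne _ hj]
    rw [this]
    intro h
    have h2 : ι (Finsupp.single 1 1) = 0 := eq_zero_of_eq_neg h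
    have h3 := jamesNorm_single 1 (by norm_num)
    rw [← hn, h2, norm_zero] at h3
    norm_num at h3

theorem main : IsCounterexample X bx :=
  ⟨inferInstance, reflexive_X, basis_bx, exists_completion bx,
    fun J _ _ ι hJ => exists_isometry J ι hJ⟩

end Pool.Agent.H7.JamesIso
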